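import Pool.Agent.V5helper8.CM.JACI

/-!
# Project CM, job SPR (helper8): Springer's theorem
-/

namespace Pool.Agent.V5helper8.CM

open MvPolynomial Pool.Agent.V5helper32.CM

/-- The linear substitution given by a matrix. -/
noncomputable def sub {n a : ℕ} (E : Matrix (Fin n) (Fin a) ℂ) :
    MvPolynomial (Fin n) ℂ →ₐ[ℂ] MvPolynomial (Fin a) ℂ :=
  MvPolynomial.aeval fun i => ∑ j, C (E i j) * X j

theorem sub_X {n a : ℕ} (E : Matrix (Fin n) (Fin a) ℂ) (i : Fin n) :
    sub E (X i) = ∑ j, C (E i j) * X j := by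
  rw [sub, aeval_X]

theorem act_eq {n : ℕ} (g : Gl n) : act g = sub (g⁻¹).val := rfl

theorem sub_C {n a : ℕ} (E : Matrix (Fin n) (Fin a) ℂ) (z : ℂ) : sub E (C z) = C z :=
  (sub E).commutes z

theorem sub_sub {n a b : ℕ} (E : Matrix (Fin n) (Fin a) ℂ) (F : Matrix (Fin a) (Fin b) ℂ)
    (h : MvPolynomial (Fin n) ℂ) : sub F (sub E h) = sub (E * F) h := by
  have : (sub F).comp (sub E) = sub (E * F) := by
    apply MvPolynomial.algHom_ext
    intro i
    rw [AlgHom.comp_apply, sub_X, map_sum, sub_X]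
    simp only [map_mul, sub_C, sub_X, Finset.mul_sum, Matrix.mul_apply, map_sum, Finset.sum_mul]
    rw [Finset.sum_comm]
    exact Finset.sum_congr rfl fun j _ => Finset.sum_congr rfl fun k _ => by rw [mul_assoc]
  exact DFunLike.congr_fun this h

theorem sub_one {n : ℕ} (h : MvPolynomial (Fin n) ℂ) :
    sub (1 : Matrix (Fin n) (Fin n) ℂ) h = h := by
  have : sub (1 : Matrix (Fin n) (Fin n) ℂ) = AlgHom.id ℂ _ := by
    apply MvPolynomial.algHom_ext
    intro i
    rw [sub_X, AlgHom.id_apply, Finset.sum_eq_single i]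
    · rw [Matrix.one_apply_eq, C_1, one_mul]
    · intro j _ hj
      rw [Matrix.one_apply_ne hj.symm, C_0, zero_mul]
    · intro hh
      exact absurd (Finset.mem_univ _) hh
  rw [this, AlgHom.id_apply]

theorem sub_hom {n a : ℕ} (E : Matrix (Fin n) (Fin a) ℂ) (h : MvPolynomial (Fin n) ℂ) (d : ℕ)
    (hd : h.IsHomogeneous d) : (sub E h).IsHomogeneous d := by
  have := hd.aeval (fun i => ∑ j, C (E i j) * X j) (n := 1) (fun i => by
    apply IsHomogeneous.sum
    intro j _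
    have := (isHomogeneous_C (Fin a) (E i j)).mul (isHomogeneous_X ℂ j)
    rwa [zero_add] at this)
  rwa [one_mul] at this

theorem eval_sub {n a : ℕ} (E : Matrix (Fin n) (Fin a) ℂ) (y : Fin a → ℂ)
    (h : MvPolynomial (Fin n) ℂ) : eval y (sub E h) = eval (E.mulVec y) h := by
  induction h using MvPolynomial.induction_on with
  | C z => rw [sub_C, eval_C, eval_C]
  | add p q hp hq => rw [map_add, map_add, map_add, hp, hq]
  | mul_X p i hp =>
    rw [map_mul, map_mul, map_mul, hp, sub_X, map_sum, eval_X]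
    congr 1
    simp only [map_mul, eval_C, eval_X]
    rfl

theorem eval_pderiv_sub {n a : ℕ} (E : Matrix (Fin n) (Fin a) ℂ) (y : Fin a → ℂ)
    (h : MvPolynomial (Fin n) ℂ) (l : Fin a) :
    eval y (pderiv l (sub E h)) = ∑ j, eval (E.mulVec y) (pderiv j h) * E j l := by
  classical
  have h1 := chain (fun i => ∑ j, C (E i j) * X j) l h
  have h2 : ∀ i, pderiv l (∑ j, C (E i j) * X j : MvPolynomial (Fin a) ℂ) = C (E i l) := by
    intro i
    rw [map_sum, Finset.sum_eq_single l]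
    · rw [pderiv_C_mul, pderiv_X_self, mul_one]
    · intro j _ hj
      rw [pderiv_C_mul, pderiv_X_of_ne hj, mul_zero]
    · intro hh
      exact absurd (Finset.mem_univ _) hh
  simp only [h2] at h1
  change pderiv l (sub E h) = _ at h1
  rw [h1, map_sum]
  refine Finset.sum_congr rfl fun j _ => ?_
  rw [map_mul, eval_C]
  change eval y (sub E _) * _ = _
  rw [eval_sub]

/-- Reflections in coordinates. -/
theorem refl_iff {U : Type} [AddCommGroup U] [Module ℂ U] {a : ℕ}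
    (c : Module.Basis (Fin a) ℂ U) (g : U ≃ₗ[ℂ] U) :
    ((matB c g).val - 1).rank = 1 ↔ IsRefl g := by
  classical
  have h1 : Matrix.toLin c c ((matB c g).val - 1) = (g : U →ₗ[ℂ] U) - LinearMap.id := by
    rw [map_sub]
    congr 1
    · exact Matrix.toLin_toMatrix c c _
    · exact Matrix.toLin_one c
  rw [Matrix.rank_eq_finrank_range_toLin _ c c, h1]
  exact Iff.rfl

theorem matB_inj {U : Type} [AddCommGroup U] [Module ℂ U] {a : ℕ}
    (c : Module.Basis (Fin a) ℂ U) : Function.Injective (matB c) := by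
  intro g g' h
  have h1 : (matB c g).val = (matB c g').val := congrArg _ h
  have h2 : (g : U →ₗ[ℂ] U) = g' := (LinearMap.toMatrix c c).injective h1
  exact LinearEquiv.toLinearMap_injective h2

/-- A finite group with enough invariants and a regular vector is a reflection group. -/
theorem core (hRD : S_RD) (hCST5 : S_CST5) (hGEN : S_GEN) (hGRTR : S_GRTR) (hMOL : S_MOL)
    (hJACD : S_JACD) (hDEG : S_DEG) {U : Type} [AddCommGroup U] [Module ℂ U]
    [FiniteDimensional ℂ U] {a : ℕ} (c : Module.Basis (Fin a) ℂ U) (G : Subgroup (U ≃ₗ[ℂ] U))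
    (hfin : Finite G) (v : U) (hv : ∀ g ∈ G, g v = v → g = 1)
    (f : Fin a → MvPolynomial (Fin a) ℂ) (d : Fin a → ℕ) (hom : ∀ i, (f i).IsHomogeneous (d i))
    (hpos : ∀ i, 0 < d i) (hinv : ∀ i, ∀ g ∈ G, act (matB c g) (f i) = f i)
    (hind : AlgebraicIndependent ℂ f) (hprod : ∏ i, d i = Nat.card G) : IsReflGrp G := by
  classical
  let _ : Fintype G := Fintype.ofFinite G
  obtain ⟨Gr, hGr⟩ : ∃ Gr : Subgroup (U ≃ₗ[ℂ] U),
    Gr = Subgroup.closure {s | s ∈ G ∧ IsRefl s} := ⟨_, rfl⟩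
  have hle : Gr ≤ G := by
    rw [hGr, Subgroup.closure_le]
    exact fun s hs => hs.1
  have hfinr : Finite Gr := Finite.of_injective (Subgroup.inclusion hle)
    (Subgroup.inclusion_injective hle)
  let _ : Fintype Gr := Fintype.ofFinite Gr
  have hGrr : IsReflGrp Gr := by
    refine ⟨hfinr, le_antisymm ?_ ?_⟩
    · rw [Subgroup.closure_le]
      exact fun s hs => hs.1
    · rw [hGr]
      apply Subgroup.closure_mono
      exact fun s hs => ⟨Subgroup.subset_closure hs, hs.2⟩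
  obtain ⟨D, hDρ, hDt, hDθ, -⟩ := hRD U a c Gr hGrr 1 1 one_pos (one_pow 1)
    (fun w hw => by rw [one_mul, inv_one, mul_one]; exact hw)
    ⟨v, rfl, fun w hw h => hv w (hle hw) h⟩
  obtain ⟨C⟩ := hCST5 a Gr D
  obtain ⟨hCind, hCgen⟩ := hGEN a Gr D C
  -- the degrees of `Gr`
  have hζ : ∀ i, C.ζ i = 1 := by
    intro i
    have h1 := C.eig i
    rw [hDt, map_one, act_eq, inv_one] at h1
    have h2 : sub ((1 : Gl a).val) (C.f i) = C.f i := by
      rw [Units.val_one]
      exact sub_one _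
    rw [h2] at h1
    have h3 : C.f i ≠ 0 := hCind.ne_zero i
    have h4 : (C.ζ i - 1) • C.f i = 0 := by
      rw [sub_smul, ← h1, one_smul, sub_self]
    rcases smul_eq_zero.mp h4 with h5 | h5
    · exact sub_eq_zero.mp h5
    · exact absurd h5 h3
  have hθ : ∀ w, D.θ w = w := by
    intro w
    apply Subtype.ext
    rw [hDθ, one_mul, inv_one, mul_one]
  have hprodr : ∏ i, C.d i = Nat.card Gr := by
    have h1 := (hGRTR a Gr D C).2
    have h2 : ∀ i, Function.update (fun _ : ℂ => 1) 1 (C.d i) (C.ζ i) = C.d i := by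
      intro i
      rw [hζ i, Function.update_self]
    simp only [h2] at h1
    rw [h1]
    exact Nat.card_congr (Equiv.subtypeUnivEquiv hθ)
  -- reflections
  have hN1 : ∑ i, (d i - 1) ≤ Nat.card {g : G // ((((matB c).comp G.subtype) g).val - 1).rank = 1} :=
    hMOL a G ((matB c).comp G.subtype) ((matB_inj c).comp G.subtype_injective) f d hom hpos
      (fun i g => hinv i g g.2) hind (by rw [hprod, Nat.card_eq_fintype_card])
  have hN2 : Nat.card {g : Gr // ((((matB c).comp Gr.subtype) g).val - 1).rank = 1} ≤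
      ∑ i, (C.d i - 1) :=
    hJACD a Gr ((matB c).comp Gr.subtype) ((matB_inj c).comp Gr.subtype_injective) C.f C.d C.hom
      C.dpos (fun i g => by
        have := C.inv i g
        rw [hDρ] at this
        exact this) hCind
  have hN3 : Nat.card {g : G // ((((matB c).comp G.subtype) g).val - 1).rank = 1} ≤
      Nat.card {g : Gr // ((((matB c).comp Gr.subtype) g).val - 1).rank = 1} := by
    have hmem : ∀ g : {g : G // ((((matB c).comp G.subtype) g).val - 1).rank = 1},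
        (g.1.1 : U ≃ₗ[ℂ] U) ∈ Gr := by
      intro g
      rw [hGr]
      exact Subgroup.subset_closure ⟨g.1.2, (refl_iff c _).mp g.2⟩
    refine Nat.card_le_card_of_injective (fun g => ⟨⟨g.1.1, hmem g⟩, g.2⟩) ?_
    intro g g' h
    have h1 := congrArg (fun x => (x.1.1 : U ≃ₗ[ℂ] U)) h
    exact Subtype.ext (Subtype.ext h1)
  -- comparison of degrees
  obtain ⟨π, hπ⟩ := hDEG a C.f f C.d d C.hom hom hCind hind C.dpos (fun i => by
    apply hCgen
    intro w
    rw [hDρ]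
    exact hinv i _ (hle w.2))
  have h1 : ∑ i, (C.d (π i) - 1) = ∑ i, (C.d i - 1) := Equiv.sum_comp π (fun i => C.d i - 1)
  have h2 : ∀ i ∈ Finset.univ, C.d (π i) - 1 ≤ d i - 1 := fun i _ => Nat.sub_le_sub_right (hπ i) 1
  have h3 : ∑ i, (C.d (π i) - 1) = ∑ i, (d i - 1) :=
    le_antisymm (Finset.sum_le_sum h2) (by omega)
  have h4 := (Finset.sum_eq_sum_iff_of_le h2).mp h3
  have h5 : ∀ i, C.d (π i) = d i := by
    intro i
    have := h4 i (Finset.mem_univ i)
    have h6 := C.dpos (π i)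
    have h7 := hpos i
    omega
  have h6 : Nat.card Gr = Nat.card G := by
    rw [← hprod, ← hprodr, ← Equiv.prod_comp π C.d]
    exact Finset.prod_congr rfl fun i _ => h5 i
  have h7 : Gr = G := Subgroup.eq_of_le_of_card_ge hle h6.ge
  exact ⟨hfin, by rw [← hGr, h7]⟩

section

variable {V : Type} [AddCommGroup V] [Module ℂ V]

theorem mem_fixV (τ : V ≃ₗ[ℂ] V) (x : V) : x ∈ fixV τ ↔ τ x = x := by
  rw [fixV, LinearMap.mem_ker, LinearMap.sub_apply, LinearMap.id_apply, sub_eq_zero]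
  exact Iff.rfl

/-- The restriction of `w` to `V^τ`. -/
theorem exists_restr (τ w : V ≃ₗ[ℂ] V) (hc : w * τ = τ * w) :
    ∃ g : fixV τ ≃ₗ[ℂ] fixV τ, ∀ x : fixV τ, (g x : V) = w x := by
  have hc' : w⁻¹ * τ = τ * w⁻¹ := by
    rw [inv_mul_eq_iff_eq_mul, ← mul_assoc, hc, mul_assoc, mul_inv_cancel, mul_one]
  have h1 : ∀ x ∈ fixV τ, (w : V →ₗ[ℂ] V) x ∈ fixV τ := by
    intro x hx
    rw [mem_fixV] at hx ⊢
    have := congrArg (fun z : V ≃ₗ[ℂ] V => z x) hc
    change w (τ x) = τ (w x) at this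
    change τ (w x) = w x
    rw [← this, hx]
  have h2 : ∀ x ∈ fixV τ, ((w⁻¹ : V ≃ₗ[ℂ] V) : V →ₗ[ℂ] V) x ∈ fixV τ := by
    intro x hx
    rw [mem_fixV] at hx ⊢
    have := congrArg (fun z : V ≃ₗ[ℂ] V => z x) hc'
    change w⁻¹ (τ x) = τ (w⁻¹ x) at this
    change τ (w⁻¹ x) = w⁻¹ x
    rw [← this, hx]
  refine ⟨LinearEquiv.ofLinearMap ((w : V →ₗ[ℂ] V).restrict h1)
    (((w⁻¹ : V ≃ₗ[ℂ] V) : V →ₗ[ℂ] V).restrict h2) ?_ ?_, fun x => rfl⟩
  · ext x
    exact w.apply_symm_apply x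
  · ext x
    exact w.symm_apply_apply x

theorem card_cen (W : Subgroup (V ≃ₗ[ℂ] V)) [Fintype W] (τ : V ≃ₗ[ℂ] V) (θ : W ≃* W)
    (hθ : ∀ w, (θ w : V ≃ₗ[ℂ] V) = τ * w * τ⁻¹)
    (hreg : ∃ v, τ v = v ∧ ∀ w ∈ W, w v = v → w = 1) :
    Finite (cenG W τ) ∧ Nat.card {w : W // θ w = w} = Nat.card (cenG W τ) := by
  classical
  obtain ⟨v, hv, hreg⟩ := hreg
  have hex : ∀ g : cenG W τ, ∃ w : V ≃ₗ[ℂ] V, w ∈ W ∧ w * τ = τ * w ∧
      ∀ x : fixV τ, (g.1 x : V) = w x := fun g => g.2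
  choose F hF1 hF2 hF3 using hex
  have hFθ : ∀ g, θ ⟨F g, hF1 g⟩ = ⟨F g, hF1 g⟩ := by
    intro g
    apply Subtype.ext
    rw [hθ]
    change τ * F g * τ⁻¹ = F g
    rw [← hF2, mul_assoc, mul_inv_cancel, mul_one]
  let Φ : cenG W τ → {w : W // θ w = w} := fun g => ⟨⟨F g, hF1 g⟩, hFθ g⟩
  have hinj : Function.Injective Φ := by
    intro g g' h
    have h1 : F g = F g' := congrArg (fun x => (x.1.1 : V ≃ₗ[ℂ] V)) h
    apply Subtype.ext
    apply LinearEquiv.ext
    intro x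
    apply Subtype.ext
    rw [hF3, hF3, h1]
  have hsurj : Function.Surjective Φ := by
    rintro ⟨⟨w, hw⟩, hwθ⟩
    have hc : w * τ = τ * w := by
      have h1 := hθ ⟨w, hw⟩
      rw [hwθ] at h1
      change w = τ * w * τ⁻¹ at h1
      rw [eq_mul_inv_iff_mul_eq] at h1
      exact h1
    obtain ⟨g, hg⟩ := exists_restr τ w hc
    refine ⟨⟨g, w, hw, hc, hg⟩, ?_⟩
    apply Subtype.ext
    apply Subtype.ext
    change F ⟨g, w, hw, hc, hg⟩ = w
    have h1 : ∀ x : fixV τ, (F ⟨g, w, hw, hc, hg⟩) x = w x := by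
      intro x
      rw [← hF3, ← hg x]
    have h2 := hreg (w⁻¹ * F ⟨g, w, hw, hc, hg⟩) (W.mul_mem (W.inv_mem hw) (hF1 _)) (by
      change w⁻¹ ((F ⟨g, w, hw, hc, hg⟩) v) = v
      rw [h1 ⟨v, (mem_fixV τ v).mpr hv⟩]
      exact w.symm_apply_apply v)
    rw [inv_mul_eq_one] at h2
    exact h2.symm
  exact ⟨Finite.of_injective Φ hinj, (Nat.card_eq_of_bijective Φ ⟨hinj, hsurj⟩).symm⟩

end

theorem t_SPR (hRD : S_RD) (hCST5 : S_CST5) (hGEN : S_GEN) (hDIFF : S_DIFF) (hGRTR : S_GRTR)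
    (hJACI : S_JACI) (hMOL : S_MOL) (hJACD : S_JACD) (hDEG : S_DEG) : S_SPR := by
  intro V _ _ _ W hW τ m hm hτ hτW hreg
  classical
  have hfinW : Finite W := hW.1
  let _ : Fintype W := Fintype.ofFinite W
  obtain ⟨n, hn⟩ : ∃ n, n = Module.finrank ℂ V := ⟨_, rfl⟩
  obtain ⟨b⟩ : Nonempty (Module.Basis (Fin n) ℂ V) := by
    rw [hn]
    exact ⟨Module.finBasis ℂ V⟩
  obtain ⟨a, ha⟩ : ∃ a, a = Module.finrank ℂ (fixV τ) := ⟨_, rfl⟩
  obtain ⟨c⟩ : Nonempty (Module.Basis (Fin a) ℂ (fixV τ)) := by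
    rw [ha]
    exact ⟨Module.finBasis ℂ (fixV τ)⟩
  obtain ⟨D, hDρ, hDt, hDθ, hDk⟩ := hRD V n b W hW τ m hm hτ hτW hreg
  obtain ⟨Cd⟩ := hCST5 n W D
  obtain ⟨hM, hMt⟩ := hDIFF n W D Cd (Matrix.of fun i j => eval D.v (pderiv j (Cd.f i)))
    (fun i j => rfl)
  obtain ⟨hcardI, hprod⟩ := hGRTR n W D Cd
  obtain ⟨hfin, hcard⟩ := card_cen W τ D.θ hDθ hreg
  obtain ⟨M, hMdef⟩ : ∃ M : Matrix (Fin n) (Fin n) ℂ,
    M = Matrix.of fun i j => eval D.v (pderiv j (Cd.f i)) := ⟨_, rfl⟩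
  rw [← hMdef] at hM hMt
  obtain ⟨E, hE⟩ : ∃ E : Matrix (Fin n) (Fin a) ℂ,
    E = LinearMap.toMatrix c b (fixV τ).subtype := ⟨_, rfl⟩
  have hE1 : ∀ (w : V ≃ₗ[ℂ] V) (g : fixV τ ≃ₗ[ℂ] fixV τ), (∀ x : fixV τ, (g x : V) = w x) →
      (matB b w).val * E = E * (matB c g).val := by
    intro w g hg
    change LinearMap.toMatrix b b (w : V →ₗ[ℂ] V) * E = E * LinearMap.toMatrix c c
      (g : fixV τ →ₗ[ℂ] fixV τ)
    rw [hE, ← LinearMap.toMatrix_comp, ← LinearMap.toMatrix_comp]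
    congr 1
    ext x
    exact (hg x).symm
  have hE1' : ∀ (w : V ≃ₗ[ℂ] V) (g : fixV τ ≃ₗ[ℂ] fixV τ), (∀ x : fixV τ, (g x : V) = w x) →
      ((matB b w)⁻¹).val * E = E * ((matB c g)⁻¹).val := by
    intro w g hg
    have h1 := hE1 w g hg
    calc ((matB b w)⁻¹).val * E
        = ((matB b w)⁻¹).val * (E * (matB c g).val) * ((matB c g)⁻¹).val := by
          rw [Matrix.mul_assoc, Matrix.mul_assoc, ← Units.val_mul, mul_inv_cancel, Units.val_one,
            Matrix.mul_one]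
      _ = ((matB b w)⁻¹).val * ((matB b w).val * E) * ((matB c g)⁻¹).val := by rw [h1]
      _ = E * ((matB c g)⁻¹).val := by
          rw [← Matrix.mul_assoc ((matB b w)⁻¹).val, ← Units.val_mul, inv_mul_cancel,
            Units.val_one, Matrix.one_mul]
  have hE2 : (D.t⁻¹).val * E = E := by
    have h1 : (matB b τ).val * E = E := by
      change LinearMap.toMatrix b b (τ : V →ₗ[ℂ] V) * E = E
      rw [hE, ← LinearMap.toMatrix_comp]
      congr 1
      ext x
      exact (mem_fixV τ x).mp x.2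
    rw [hDt]
    nth_rewrite 1 [← h1]
    rw [← Matrix.mul_assoc, ← Units.val_mul, inv_mul_cancel, Units.val_one, Matrix.one_mul]
  have hE3 : ∀ z, E.mulVec z = 0 → z = 0 := by
    intro z hz
    have h1 := LinearMap.toMatrix_mulVec_repr c b (fixV τ).subtype (c.equivFun.symm z)
    have h2 : (c.repr (c.equivFun.symm z) : Fin a → ℂ) = z := c.equivFun.apply_symm_apply z
    rw [h2, ← hE, hz] at h1
    have h3 : (fixV τ).subtype (c.equivFun.symm z) = 0 := by
      apply b.repr.injective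
      rw [map_zero]
      exact DFunLike.coe_injective h1.symm
    have h4 : c.equivFun.symm z = 0 := Subtype.ext h3
    rw [← h2, h4, map_zero]
    rfl
  obtain ⟨y, hy⟩ : ∃ y, E.mulVec y = D.v := by
    have h2 : (b.repr (b.equivFun.symm D.v) : Fin n → ℂ) = D.v := b.equivFun.apply_symm_apply D.v
    have h1 : τ (b.equivFun.symm D.v) = b.equivFun.symm D.v := by
      apply b.repr.injective
      apply DFunLike.coe_injective
      have h3 := LinearMap.toMatrix_mulVec_repr b b (τ : V →ₗ[ℂ] V) (b.equivFun.symm D.v)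
      have h4 := D.tv
      rw [hDt] at h4
      change (LinearMap.toMatrix b b (τ : V →ₗ[ℂ] V)).mulVec D.v = D.v at h4
      rw [h2, h4] at h3
      rw [h2]
      exact h3.symm
    refine ⟨c.repr ⟨b.equivFun.symm D.v, (mem_fixV τ _).mpr h1⟩, ?_⟩
    rw [hE, LinearMap.toMatrix_mulVec_repr]
    exact h2
  -- the indices with eigenvalue one
  have hcardI' : Nat.card (Fin a) = Nat.card {i // Cd.ζ i = 1} := by
    rw [hcardI, hDk, Nat.card_fin, ha]
  obtain ⟨eI⟩ : Nonempty (Fin a ≃ {i // Cd.ζ i = 1}) := by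
    rw [Nat.card_eq_fintype_card, Nat.card_eq_fintype_card] at hcardI'
    exact ⟨Fintype.equivOfCardEq hcardI'⟩
  obtain ⟨v, hv, hvreg⟩ := hreg
  refine core hRD hCST5 hGEN hGRTR hMOL hJACD hDEG c (cenG W τ) hfin
    ⟨v, (mem_fixV τ v).mpr hv⟩ ?_ (fun i => sub E (Cd.f (eI i).1)) (fun i => Cd.d (eI i).1)
    (fun i => sub_hom E _ _ (Cd.hom _)) (fun i => Cd.dpos _) ?_ ?_ ?_
  · rintro g ⟨w, hw, hc, hg⟩ h
    have h1 : w v = v := by
      have := hg ⟨v, (mem_fixV τ v).mpr hv⟩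
      rw [h] at this
      exact this.symm
    have h2 := hvreg w hw h1
    apply LinearEquiv.ext
    intro x
    apply Subtype.ext
    rw [hg, h2]
    rfl
  · rintro i g ⟨w, hw, hc, hg⟩
    rw [act_eq, sub_sub, ← hE1' w g hg, ← sub_sub, ← act_eq]
    have h1 := Cd.inv (eI i).1 ⟨w, hw⟩
    rw [hDρ] at h1
    congr 1
  · rw [hJACI]
    intro hdet
    have h1 := congrArg (eval y) hdet
    rw [RingHom.map_det, map_zero] at h1
    obtain ⟨z, hz, hz0⟩ := Matrix.exists_mulVec_eq_zero_iff.mpr h1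
    apply hz
    apply hE3
    apply Matrix.eq_zero_of_mulVec_eq_zero hM
    have h2 : Matrix.diagonal Cd.ζ * (M * E) = M * E := by
      rw [← Matrix.mul_assoc, ← hMt, Matrix.mul_assoc, hE2]
    rw [Matrix.mulVec_mulVec]
    funext k
    by_cases hk : Cd.ζ k = 1
    · have h3 := congrFun hz0 (eI.symm ⟨k, hk⟩)
      change _ = (0 : ℂ) at h3
      change _ = (0 : ℂ)
      rw [← h3]
      simp only [Matrix.mulVec, dotProduct]
      refine Finset.sum_congr rfl fun l _ => ?_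
      congr 1
      rw [RingHom.mapMatrix_apply, Matrix.map_apply, Matrix.of_apply]
      change _ = eval y (pderiv l (sub E (Cd.f (eI (eI.symm ⟨k, hk⟩)).1)))
      rw [Equiv.apply_symm_apply, eval_pderiv_sub, hy, Matrix.mul_apply, hMdef]
      rfl
    · have h3 : ∀ l, (M * E) k l = 0 := by
        intro l
        have h4 := congrFun (congrFun h2 k) l
        rw [Matrix.diagonal_mul] at h4
        have h5 : (Cd.ζ k - 1) * (M * E) k l = 0 := by
          rw [sub_mul, h4, one_mul, sub_self]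
        rcases mul_eq_zero.mp h5 with h6 | h6
        · exact absurd (sub_eq_zero.mp h6) hk
        · exact h6
      simp only [Matrix.mulVec, dotProduct, h3, zero_mul, Finset.sum_const_zero, Pi.zero_apply]
  · rw [← hcard, ← hprod]
    calc ∏ i : Fin a, Cd.d (eI i).1 = ∏ i : {i // Cd.ζ i = 1}, Cd.d i.1 :=
          Equiv.prod_comp eI (fun i => Cd.d i.1)
      _ = ∏ i ∈ Finset.univ.filter (fun i => Cd.ζ i = 1), Cd.d i := by
          rw [Finset.prod_subtype (p := fun i => Cd.ζ i = 1)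
            (Finset.univ.filter (fun i => Cd.ζ i = 1)) (fun i => by simp)]
      _ = ∏ i, if Cd.ζ i = 1 then Cd.d i else 1 := by rw [Finset.prod_filter]
      _ = _ := by
          refine Finset.prod_congr rfl fun i _ => ?_
          by_cases hi : Cd.ζ i = 1
          · rw [if_pos hi, hi, Function.update_self]
          · rw [if_neg hi, Function.update_of_ne hi]

end Pool.Agent.V5helper8.CM
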