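import Pool.Agent.V5helper32.CM.Stm5

/-!
# Project CM, job JACI (helper8): the Jacobian criterion
-/

namespace Pool.Agent.V5helper8.CM

open MvPolynomial Pool.Agent.V5helper32.CM

/-- Chain rule. -/
theorem chain {n k : ℕ} (f : Fin k → MvPolynomial (Fin n) ℂ) (j : Fin n)
    (P : MvPolynomial (Fin k) ℂ) :
    pderiv j (aeval f P) = ∑ i, aeval f (pderiv i P) * pderiv j (f i) := by
  classical
  induction P using MvPolynomial.induction_on with
  | C a =>
    rw [aeval_C]
    change pderiv j (C a) = _
    simp only [pderiv_C, map_zero, zero_mul, Finset.sum_const_zero]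
  | add p q hp hq =>
    simp only [map_add, hp, hq, add_mul, Finset.sum_add_distrib]
  | mul_X p i hp =>
    rw [map_mul, pderiv_mul, hp, aeval_X]
    simp only [pderiv_mul, pderiv_X, map_add, map_mul, aeval_X, add_mul, Finset.sum_add_distrib,
      Finset.sum_mul]
    congr 1
    · exact Finset.sum_congr rfl fun l _ => by ring
    · rw [Finset.sum_eq_single i]
      · simp
      · intro b _ hb
        rw [Pi.single_eq_of_ne (Ne.symm hb)]
        simp
      · intro h
        exact absurd (Finset.mem_univ _) h

theorem degree_pderiv {k : ℕ} (P : MvPolynomial (Fin k) ℂ) (i : Fin k) (d : ℕ)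
    (h : P.totalDegree ≤ d + 1) : (pderiv i P).totalDegree ≤ d := by
  refine Finset.sup_le fun m hm => ?_
  rw [mem_support_iff, coeff_pderiv] at hm
  have h1 : m + Finsupp.single i 1 ∈ P.support := by
    rw [mem_support_iff]
    exact fun hh => hm (by rw [hh, zero_mul])
  have h2 := (le_totalDegree h1).trans h
  rw [Finsupp.sum_add_index' (fun _ => rfl) (fun _ _ _ => rfl), Finsupp.sum_single_index rfl] at h2
  omega

theorem indep_of_det {n : ℕ} (f : Fin n → MvPolynomial (Fin n) ℂ)
    (h : (Matrix.of fun i j => pderiv j (f i)).det ≠ 0) : AlgebraicIndependent ℂ f := by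
  classical
  have key : ∀ d (P : MvPolynomial (Fin n) ℂ), P.totalDegree ≤ d → aeval f P = 0 → P = 0 := by
    intro d
    induction d with
    | zero =>
      intro P hP h0
      rw [Nat.le_zero, totalDegree_eq_zero_iff_eq_C] at hP
      rw [hP, aeval_C] at h0
      have h1 : (C (coeff 0 P) : MvPolynomial (Fin n) ℂ) = C 0 := by
        rw [C_0]; exact h0
      rw [hP, h1, C_0]
    | succ d ih =>
      intro P hP h0
      have h1 : ∀ j, ∑ i, aeval f (pderiv i P) * pderiv j (f i) = 0 := by
        intro j
        rw [← chain, h0, map_zero]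
      have h2 : (fun i => aeval f (pderiv i P)) = 0 := by
        apply Matrix.eq_zero_of_vecMul_eq_zero h
        funext j
        exact h1 j
      have h3 : ∀ i, pderiv i P = 0 := fun i =>
        ih _ (degree_pderiv P i d hP) (congrFun h2 i)
      have h4 : P = C (coeff 0 P) := by
        ext m
        rw [coeff_C]
        split_ifs with hm
        · rw [hm]
        · obtain ⟨i, hi⟩ : ∃ i, m i ≠ 0 := by
            by_contra hh
            push Not at hh
            exact hm (Finsupp.ext fun i => (hh i).symm)
          have h5 := congrArg (coeff (m - Finsupp.single i 1)) (h3 i)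
          rw [coeff_pderiv, coeff_zero] at h5
          have h6 : m - Finsupp.single i 1 + Finsupp.single i 1 = m := by
            ext l
            simp only [Finsupp.add_apply, Finsupp.tsub_apply, Finsupp.single_apply]
            split_ifs with hl
            · subst hl; omega
            · omega
          rw [h6] at h5
          rcases mul_eq_zero.mp h5 with h7 | h7
          · exact h7
          · exfalso
            have : (((m - Finsupp.single i 1 : Fin n →₀ ℕ) i + 1 : ℕ) : ℂ) = 0 := by
              push_cast
              exact h7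
            exact absurd this (Nat.cast_ne_zero.mpr (Nat.succ_ne_zero _))
      rw [h4, aeval_C] at h0
      have h1 : (C (coeff 0 P) : MvPolynomial (Fin n) ℂ) = C 0 := by
        rw [C_0]; exact h0
      rw [h4, h1, C_0]
  rw [algebraicIndependent_iff]
  exact fun p hp => key _ p le_rfl hp

theorem deriv_zero {A : Type} [CommRing A] [IsDomain A] [CharZero A] (B : Subring A)
    (D : A → A) (hadd : ∀ a b, D (a + b) = D a + D b) (hmul : ∀ a b, D (a * b) = D a * b + a * D b)
    (hB : ∀ b ∈ B, D b = 0) (x : A) (hx : IsAlgebraic B x) : D x = 0 := by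
  classical
  have h1 : D 1 = 0 := hB 1 B.one_mem
  have hpow : ∀ n : ℕ, D (x ^ n) = n * x ^ (n - 1) * D x := by
    intro n
    induction n with
    | zero => rw [pow_zero, h1]; simp
    | succ n ih =>
      rw [pow_succ, hmul, ih]
      rcases n with _ | n
      · simp
      · simp only [Nat.add_sub_cancel]
        push_cast
        ring
  have key : ∀ p : Polynomial B, D (Polynomial.aeval x p) =
      Polynomial.aeval x (Polynomial.derivative p) * D x := by
    intro p
    induction p using Polynomial.induction_on' with
    | add p q hp hq => rw [map_add, hadd, hp, hq, Polynomial.derivative_add, map_add, add_mul]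
    | monomial n a =>
      rw [Polynomial.derivative_monomial, Polynomial.aeval_monomial, Polynomial.aeval_monomial,
        hmul, hpow, map_mul, map_natCast]
      have : D (algebraMap B A a) = 0 := hB _ a.2
      rw [this]
      ring
  obtain ⟨p0, hp0, hpx0⟩ := hx
  have hex : ∃ d : ℕ, ∃ p : Polynomial B, p ≠ 0 ∧ Polynomial.aeval x p = 0 ∧ p.natDegree = d :=
    ⟨_, p0, hp0, hpx0, rfl⟩
  obtain ⟨p, hp, hpx, hpd⟩ := Nat.find_spec hex
  have hmin : ∀ q : Polynomial B, q ≠ 0 → Polynomial.aeval x q = 0 → Nat.find hex ≤ q.natDegree :=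
    fun q hq hqx => Nat.find_min' hex ⟨q, hq, hqx, rfl⟩
  have h2 := key p
  have h0 : D 0 = 0 := hB 0 B.zero_mem
  rw [hpx, h0] at h2
  rcases mul_eq_zero.mp h2.symm with h3 | h3
  · exfalso
    have hd : p.natDegree ≠ 0 := by
      intro hd
      rw [Polynomial.eq_C_of_natDegree_eq_zero hd, Polynomial.aeval_C] at hpx
      have : p.coeff 0 = 0 := Subtype.ext hpx
      apply hp
      rw [Polynomial.eq_C_of_natDegree_eq_zero hd, this, Polynomial.C_0]
    have h4 : Polynomial.derivative p ≠ 0 := by
      intro h4
      exact hd (Polynomial.derivative_eq_zero.mp h4)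
    have h5 := hmin _ h4 h3
    have h6 := Polynomial.natDegree_derivative_lt hd
    omega
  · exact h3

theorem t_JACI : S_JACI := by
  intro n f
  refine ⟨fun h hdet => ?_, indep_of_det f⟩
  classical
  obtain ⟨g, hg, hg0⟩ := Matrix.exists_mulVec_eq_zero_iff.mpr hdet
  have htr : IsTranscendenceBasis ℂ f := by
    apply h.isTranscendenceBasis_of_trdeg_le_of_finite
    rw [MvPolynomial.trdeg_of_isDomain]
    simp
  have halg := htr.isAlgebraic
  let D : MvPolynomial (Fin n) ℂ → MvPolynomial (Fin n) ℂ := fun x => ∑ j, g j * pderiv j x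
  have hD1 : ∀ a b, D (a + b) = D a + D b := by
    intro a b
    simp only [D, map_add, mul_add, Finset.sum_add_distrib]
  have hD2 : ∀ a b, D (a * b) = D a * b + a * D b := by
    intro a b
    simp only [D, pderiv_mul, mul_add, Finset.sum_add_distrib, Finset.sum_mul, Finset.mul_sum]
    congr 1
    · exact Finset.sum_congr rfl fun l _ => by ring
    · exact Finset.sum_congr rfl fun l _ => by ring
  have hD3 : ∀ b ∈ (Algebra.adjoin ℂ (Set.range f)).toSubring, D b = 0 := by
    intro b hb
    induction hb using Algebra.adjoin_induction with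
    | mem x hx =>
      obtain ⟨i, rfl⟩ := hx
      have := congrFun hg0 i
      simp only [Matrix.mulVec, dotProduct, Matrix.of_apply, Pi.zero_apply] at this
      rw [← this]
      exact Finset.sum_congr rfl fun l _ => mul_comm _ _
    | algebraMap r =>
      change ∑ j, g j * pderiv j (C r) = 0
      simp
    | add x y _ _ hx hy => rw [hD1, hx, hy, add_zero]
    | mul x y _ _ hx hy => rw [hD2, hx, hy, zero_mul, mul_zero, add_zero]
  apply hg
  funext k
  have h1 : D (X k) = 0 := deriv_zero _ D hD1 hD2 hD3 (X k) (halg.isAlgebraic (X k))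
  simp only [D, pderiv_X] at h1
  rw [Finset.sum_eq_single k] at h1
  · simpa using h1
  · intro b _ hb
    rw [Pi.single_eq_of_ne hb.symm]
    simp
  · intro hh
    exact absurd (Finset.mem_univ _) hh

end Pool.Agent.V5helper8.CM
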